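import Mathlib
import Pool.Agent.Lib.QMCurves

set_option autoImplicit false

/-!
Explicit infinite families of minimal values, rational and irrational.
-/

namespace Pool.Agent.Results.MP_dd8059_ag.ExactValues

open Pool.Agent.QMVal

/-- The values of `√t` obtained from `1`, from plane curves of degree `e` with an `A`-singularity
of type `2cm - 1`, and from the moves `s ↦ a s + b/s`. -/
inductive Reach : ℝ → Prop
  | one : Reach 1
  | curve (e c m : ℕ) (hc : 1 ≤ c) (hm : 1 ≤ m) (hce : 2 * c + 1 ≤ e) (hme : 2 * m + 1 ≤ e) :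
      Reach (((e : ℝ) + Real.sqrt ((e : ℝ) ^ 2 - 4 * ((c : ℝ) * m))) / 2)
  | point (e c m p : ℕ) (hc : 1 ≤ c) (hm : 1 ≤ m) (hce : 2 * c + 1 ≤ e) (hme : 2 * m + 1 ≤ e)
      (hp : 2 * (c * m) < p) (hs : (p : ℝ) - (c : ℝ) * m ≤ ((p : ℝ) / e) ^ 2) :
      Reach ((p : ℝ) / e)
  | move (s : ℝ) (a b : ℕ) (h : Reach s) (hab : s ^ 2 ≤ a * s ^ 2 + b) :
      Reach (a * s + b / s)

theorem reach_smin {s : ℝ} (h : Reach s) : SMin s := by
  induction h with
  | one => exact SMin.one
  | curve e c m hc hm hce hme =>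
    have he : (3 : ℝ) ≤ e := by exact_mod_cast (by omega : 3 ≤ e)
    have hc' : (2 * c + 1 : ℝ) ≤ e := by exact_mod_cast hce
    have hm' : (2 * m + 1 : ℝ) ≤ e := by exact_mod_cast hme
    have hc0 : (0 : ℝ) ≤ c := by positivity
    have hm0 : (0 : ℝ) ≤ m := by positivity
    have hcm : 4 * ((c : ℝ) * m) ≤ (e : ℝ) ^ 2 := by
      have h1 : (2 * (c : ℝ)) * (2 * m) ≤ e * e :=
        mul_le_mul (by linarith) (by linarith) (by positivity) (by linarith)
      nlinarith
    set q := Real.sqrt ((e : ℝ) ^ 2 - 4 * ((c : ℝ) * m)) with hq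
    have hq0 : 0 ≤ q := Real.sqrt_nonneg _
    have hq2 : q ^ 2 = (e : ℝ) ^ 2 - 4 * ((c : ℝ) * m) := Real.sq_sqrt (by linarith)
    apply SMin.curve e c m hc hm hce hme
    · linarith
    · push_cast
      nlinarith
    · push_cast
      nlinarith [mul_nonneg hq0 (by linarith : (0 : ℝ) ≤ e)]
  | point e c m p hc hm hce hme hp hs =>
    apply SMin.point e c m p hc hm hce hme hp
    push_cast
    exact hs
  | move s a b _ hab ih => exact ih.move a b hab

/-- All reachable values are minimal. -/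
theorem result : ∀ s : ℝ, Reach s → MuHatLe (s ^ 2) s :=
  fun _ h => (reach_smin h).2

end Pool.Agent.Results.MP_dd8059_ag.ExactValues
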